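import Pool.Agent.Cfg3.Lists

/-!
Every combinatorial configuration with three points on each line and three lines through each
point, and with 13 or 14 points, is geometrically realizable in the Euclidean plane, with the
exception of the disjoint union of two Fano planes.
-/

namespace Pool.Agent.Results.MP_79eb83_co.AllRealizable

open Pool.Agent.Cfg3

/-- Labels of the points of the stored configuration with two components. -/
def colP : Fin 14 → Bool × ZMod 7 :=
  ![(false, 0), (false, 1), (false, 3), (false, 2), (false, 6), (false, 4), (false, 5),
    (true, 0), (true, 1), (true, 3), (true, 2), (true, 6), (true, 4), (true, 5)]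

/-- Labels of the lines of the stored configuration with two components. -/
def colL : Fin 14 → Bool × ZMod 7 :=
  ![(false, 0), (false, 6), (false, 4), (false, 1), (false, 5), (false, 2), (false, 3),
    (true, 0), (true, 6), (true, 4), (true, 1), (true, 5), (true, 2), (true, 3)]

theorem colP_bij : Function.Bijective colP :=
  (Fintype.bijective_iff_injective_and_card colP).2 ⟨by decide, by decide⟩

theorem colL_bij : Function.Bijective colL :=
  (Fintype.bijective_iff_injective_and_card colL).2 ⟨by decide, by decide⟩

theorem look7 : look t14 7 = 0x1a0026002900150030800c8003800034004c0052002a006100190007 :=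
  Nat.eq_of_beq_eq_true (by decide +kernel)

theorem col_inc : ∀ x y : Fin 14,
    (Nat.testBit 0x1a0026002900150030800c8003800034004c0052002a006100190007 (16 * (y : ℕ) + x) = true ↔
      ((colP x).1 = (colL y).1 ∧ ((colP x).2 = (colL y).2 ∨ (colP x).2 = (colL y).2 + 1 ∨
        (colP x).2 = (colL y).2 + 3))) := by
  decide

theorem two_fano {P L : Type*} {I : P → L → Prop} (h : Mod 14 (look t14 7) I) : IsTwoFano I := by
  obtain ⟨f, g, hf, hg, hfg⟩ := h
  refine ⟨(Equiv.ofBijective f hf).symm.trans (Equiv.ofBijective colP colP_bij),
    (Equiv.ofBijective g hg).symm.trans (Equiv.ofBijective colL colL_bij), ?_⟩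
  intro p l
  have h1 := hfg ((Equiv.ofBijective f hf).symm p) ((Equiv.ofBijective g hg).symm l)
  rw [look7, col_inc] at h1
  have e1 : f ((Equiv.ofBijective f hf).symm p) = p := (Equiv.ofBijective f hf).apply_symm_apply p
  have e2 : g ((Equiv.ofBijective g hg).symm l) = l := (Equiv.ofBijective g hg).apply_symm_apply l
  rw [e1, e2] at h1
  exact h1

/-- Every combinatorial (13_3) configuration, and every combinatorial (14_3) configuration that is
not the disjoint union of two Fano planes, is geometrically realizable. -/
theorem result {P L : Type*} (I : P → L → Prop) (n : ℕ) (hn : n = 13 ∨ n = 14)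
    (h : IsConfiguration n I) (h2 : ¬ IsTwoFano I) : GeometricallyRealizable I := by
  have hC : Conf3 I := ⟨h.three_points, h.three_lines, fun p q l m hpq h3 h4 h5 h6 =>
    h.linear p q hpq l m h3 h4 h5 h6⟩
  have hn0 : n ≠ 0 := by omega
  have hP : Finite P := Nat.finite_of_card_ne_zero (by rw [h.card_points]; exact hn0)
  have hL : Finite L := Nat.finite_of_card_ne_zero (by rw [h.card_lines]; exact hn0)
  have eP : Fin n ≃ P := (Finite.equivFinOfCardEq h.card_points).symm
  have eL : Fin n ≃ L := (Finite.equivFinOfCardEq h.card_lines).symm
  obtain ⟨j, hj, hM⟩ := all_found n (by omega) (by omega) _ (hC.relabel eP.bijective eL.bijective)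
  have hM' := Mod.comp eP.bijective eL.bijective hM
  rcases hn with rfl | rfl
  · obtain ⟨x, y, z, u, v, w, hz, hc⟩ := coords13 j hj
    exact realizable_of_coords (by norm_num) hC hM' hz hc
  · by_cases h7 : j = 7
    · subst h7
      exact absurd (two_fano hM') h2
    · obtain ⟨x, y, z, u, v, w, hz, hc⟩ := coords14 j hj h7
      exact realizable_of_coords (by norm_num) hC hM' hz hc

end Pool.Agent.Results.MP_79eb83_co.AllRealizable
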